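import Pool.Agent.L5helper14.Edge.EC

/-!
# The Euler products of all elliptic curves over all number fields converge on the edge of absolute
convergence, outside one set of heights of Hausdorff dimension zero

The `L`-series of an elliptic curve `E` over a number field `K` converges absolutely for
`Re s > 3/2`.  There is one set `Z` of real numbers, of Hausdorff dimension zero, such that for every
number field `K`, every elliptic curve `E` over `K` and every real `t` outside `Z` the Euler product
of `L(E, s)`, taken in the order of increasing norms, converges at the edge point `3/2 + it`, to a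
finite limit `ℓ ≠ 0`, and `L(E, s) → ℓ` when `s → 3/2 + it` non-tangentially from the half-plane of
absolute convergence.
-/

set_option autoImplicit false
open NumberField
open Classical

namespace Pool.Agent.Results.MP_7ed9c3_nt.EdgeConvergence

open IsDedekindDomain Filter Topology MeasureTheory

/-- `M v` is, for every `v`, an integral model of `E` with discriminant minimal at `v`. -/
def MinimalModels {K : Type} [Field K] [NumberField K] (E : WeierstrassCurve K)
    (M : HeightOneSpectrum (𝓞 K) → WeierstrassCurve (𝓞 K)) : Prop :=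
  ∀ v : HeightOneSpectrum (𝓞 K),
    (∃ C : WeierstrassCurve.VariableChange K, C • E = (M v).map (algebraMap (𝓞 K) K)) ∧
    ∀ W : WeierstrassCurve (𝓞 K),
      (∃ C : WeierstrassCurve.VariableChange K, C • E = W.map (algebraMap (𝓞 K) K)) →
        ∀ n : ℕ, (M v).Δ ∈ v.asIdeal ^ n → W.Δ ∈ v.asIdeal ^ n

/-- The Euler factor of the problem at `v`, computed from the reduction of the model `M v`. -/
noncomputable def factor {K : Type} [Field K] [NumberField K]
    (M : HeightOneSpectrum (𝓞 K) → WeierstrassCurve (𝓞 K)) (v : HeightOneSpectrum (𝓞 K)) (s : ℂ) :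
    ℂ :=
  (1 - ((((Ideal.absNorm v.asIdeal : ℕ) : ℤ) -
          ((Nat.card {p : (𝓞 K ⧸ v.asIdeal) × (𝓞 K ⧸ v.asIdeal) //
            p.2 ^ 2 + Ideal.Quotient.mk v.asIdeal (M v).a₁ * p.1 * p.2
              + Ideal.Quotient.mk v.asIdeal (M v).a₃ * p.2
            = p.1 ^ 3 + Ideal.Quotient.mk v.asIdeal (M v).a₂ * p.1 ^ 2
              + Ideal.Quotient.mk v.asIdeal (M v).a₄ * p.1
              + Ideal.Quotient.mk v.asIdeal (M v).a₆} : ℕ) : ℤ) : ℤ) : ℂ)
          * ((Ideal.absNorm v.asIdeal : ℕ) : ℂ) ^ (-s)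
      + (if (M v).Δ ∈ v.asIdeal then (0 : ℂ) else 1)
          * ((Ideal.absNorm v.asIdeal : ℕ) : ℂ) ^ (1 - 2 * s))⁻¹

/-- The Euler product of the problem. -/
noncomputable def LSeries {K : Type} [Field K] [NumberField K]
    (M : HeightOneSpectrum (𝓞 K) → WeierstrassCurve (𝓞 K)) (s : ℂ) : ℂ :=
  ∏' v : HeightOneSpectrum (𝓞 K), factor M v s

/-- **Convergence on the edge.**  There is a set `Z` of real numbers of Hausdorff dimension zero
such that for all number fields `K` (inside `ℂ`), all elliptic curves `E` over `K` with minimal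
models `M` and all real `t ∉ Z` there is a complex number `ℓ ≠ 0` such that

* the product of the Euler factors at `3/2 + it` over the `v` of norm `≤ n` tends to `ℓ` as `n → ∞`;
* `L(E, s)` tends to `ℓ` as `s → 3/2 + it` inside `{s | Re s > 3/2, |Im s - t| ≤ κ (Re s - 3/2)}`,
  for every `κ`. -/
theorem result :
    ∃ Z : Set ℝ, dimH Z = 0 ∧
      ∀ (K : IntermediateField ℚ ℂ) [NumberField K] (E : WeierstrassCurve K), E.IsElliptic →
      ∀ M : HeightOneSpectrum (𝓞 K) → WeierstrassCurve (𝓞 K), MinimalModels E M →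
      ∀ t : ℝ, t ∉ Z →
        ∃ ℓ : ℂ, ℓ ≠ 0 ∧
          Tendsto (fun n : ℕ => ∏ᶠ (v : HeightOneSpectrum (𝓞 K))
            (_ : Ideal.absNorm v.asIdeal ≤ n), factor M v (3 / 2 + t * Complex.I)) atTop (𝓝 ℓ) ∧
          ∀ κ : ℝ, Tendsto (LSeries M)
            (𝓝[{s : ℂ | 3 / 2 < s.re ∧ |s.im - t| ≤ κ * (s.re - 3 / 2)}]
              (3 / 2 + t * Complex.I)) (𝓝 ℓ) := by
  refine ⟨L5helper14.Edge.ZZ, L5helper14.Edge.dimH_ZZ, ?_⟩
  intro K _ E hE M hM t ht
  obtain ⟨l, P, Q, hl, hP, hQ, hD⟩ := H341R2.EC.exists_integral E hE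
  have ht' : t ∉ L5helper14.Edge.excE P Q := by
    intro h
    apply ht
    unfold L5helper14.Edge.ZZ
    rw [Set.mem_iUnion]
    exact ⟨⟨⟨K, inferInstance⟩, (P, Q)⟩, h⟩
  obtain ⟨ℓ, hℓ, h1, h2⟩ := L5helper14.Edge.edge_EC E hl hP hQ hD M hM ht'
  refine ⟨ℓ, hℓ, ?_, ?_⟩
  · refine h1.congr fun n => ?_
    symm
    have h3 := finprod_mem_eq_finite_toFinset_prod
      (fun v : HeightOneSpectrum (𝓞 K) => factor M v (3 / 2 + t * Complex.I))
      ((L5helper14.Edge.psys K).fin n)
    exact h3
  · intro κ
    rcases lt_or_ge κ 0 with hκ | hκ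
    · have h3 : {s : ℂ | 3 / 2 < s.re ∧ |s.im - t| ≤ κ * (s.re - 3 / 2)} = ∅ := by
        ext s
        simp only [Set.mem_ofPred_eq, Set.mem_empty_iff_false, iff_false, not_and, not_le]
        intro h4
        have h5 : κ * (s.re - 3 / 2) < 0 := mul_neg_of_neg_of_pos hκ (by linarith)
        linarith [abs_nonneg (s.im - t)]
      rw [h3, nhdsWithin_empty]
      exact tendsto_bot
    · have h3 := h2 κ hκ
      have h4 : Tendsto (fun s : ℂ => s - (3 / 2 + t * Complex.I))
          (𝓝[{s : ℂ | 3 / 2 < s.re ∧ |s.im - t| ≤ κ * (s.re - 3 / 2)}] (3 / 2 + t * Complex.I))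
          (𝓝[L5helper14.Edge.cone κ] 0) := by
        refine tendsto_nhdsWithin_iff.2 ⟨?_, ?_⟩
        · have h5 : Tendsto (fun s : ℂ => s - (3 / 2 + t * Complex.I))
            (𝓝 (3 / 2 + t * Complex.I)) (𝓝 ((3 / 2 + t * Complex.I) - (3 / 2 + t * Complex.I))) :=
            tendsto_id.sub_const _
          rw [sub_self] at h5
          exact h5.mono_left nhdsWithin_le_nhds
        · filter_upwards [self_mem_nhdsWithin] with s hs
          obtain ⟨h6, h7⟩ := hs
          have e1 : (s - (3 / 2 + t * Complex.I)).re = s.re - 3 / 2 := by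
            simp
          have e2 : (s - (3 / 2 + t * Complex.I)).im = s.im - t := by
            simp
          refine ⟨?_, ?_⟩
          · rw [e1]
            linarith
          · rw [e1, e2]
            exact h7
      refine (h3.comp h4).congr fun s => ?_
      simp only [Function.comp_apply, add_sub_cancel]
      rfl

end Pool.Agent.Results.MP_7ed9c3_nt.EdgeConvergence
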