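import Pool.Agent.L5helper14.Edge.EC3

/-!
# The values of the L-series of every elliptic curve over every number field on the edge of absolute
convergence have a limiting distribution, uniformly in all long windows

For an elliptic curve `E` over a number field `K` the limits `F t = lim L(E, σ + it)`, `σ ↓ 3/2`,
exist for almost all `t`.  There is a probability measure `μ` on `ℂ`, `μ {0} = 0`, such that for every
continuous `g` on `ℂ ∖ {0}` of growth `≤ C (|z|^q + |z|^(-q))`, `q < 1/2`, the means of `g (F t)` over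
`T ≤ t ≤ T + H` tend to `∫ g dμ` as `H → ∞`, uniformly in `T`.
-/

set_option autoImplicit false
open NumberField
open Classical

namespace Pool.Agent.Results.MP_7ed9c3_nt.EdgeDistribution

open IsDedekindDomain Filter Topology MeasureTheory

/-- `M v` is, for every `v`, an integral model of `E` with discriminant minimal at `v`. -/
def MinimalModels {K : Type} [Field K] [NumberField K] (E : WeierstrassCurve K)
    (M : HeightOneSpectrum (𝓞 K) → WeierstrassCurve (𝓞 K)) : Prop :=
  ∀ v : HeightOneSpectrum (𝓞 K),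
    (∃ C : WeierstrassCurve.VariableChange K, C • E = (M v).map (algebraMap (𝓞 K) K)) ∧
    ∀ W : WeierstrassCurve (𝓞 K),
      (∃ C : WeierstrassCurve.VariableChange K, C • E = W.map (algebraMap (𝓞 K) K)) →
        ∀ n : ℕ, (M v).Δ ∈ v.asIdeal ^ n → W.Δ ∈ v.asIdeal ^ n

/-- The Euler product of the problem, computed from the reductions of the models `M v`. -/
noncomputable def LSeries {K : Type} [Field K] [NumberField K]
    (M : HeightOneSpectrum (𝓞 K) → WeierstrassCurve (𝓞 K)) (s : ℂ) : ℂ :=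
  ∏' v : HeightOneSpectrum (𝓞 K),
    (1 - ((((Ideal.absNorm v.asIdeal : ℕ) : ℤ) -
          ((Nat.card {p : (𝓞 K ⧸ v.asIdeal) × (𝓞 K ⧸ v.asIdeal) //
            p.2 ^ 2 + Ideal.Quotient.mk v.asIdeal (M v).a₁ * p.1 * p.2
              + Ideal.Quotient.mk v.asIdeal (M v).a₃ * p.2
            = p.1 ^ 3 + Ideal.Quotient.mk v.asIdeal (M v).a₂ * p.1 ^ 2
              + Ideal.Quotient.mk v.asIdeal (M v).a₄ * p.1
              + Ideal.Quotient.mk v.asIdeal (M v).a₆} : ℕ) : ℤ) : ℤ) : ℂ)
          * ((Ideal.absNorm v.asIdeal : ℕ) : ℂ) ^ (-s)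
      + (if (M v).Δ ∈ v.asIdeal then (0 : ℂ) else 1)
          * ((Ideal.absNorm v.asIdeal : ℕ) : ℂ) ^ (1 - 2 * s))⁻¹

/-- **Limiting distribution on the edge.**  For an elliptic curve `E` over a number field `K` there
is a measurable function `F`, the boundary function of `L(E, s)`: for almost all `t`, `F t ≠ 0` and
`L(E, σ + it) → F t` as `σ ↓ 3/2`; and there is a probability measure `μ` on `ℂ` with `μ {0} = 0`
such that for every function `g`, continuous on `ℂ ∖ {0}`, with `|g z| ≤ C (|z|^q + |z|^(-q))` for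
some `q < 1/2`, the means of `g (F t)` over the intervals `[T, T + H]` tend to `∫ g dμ` as `H → ∞`,
uniformly in `T`. -/
theorem result (K : Type) [Field K] [NumberField K] (E : WeierstrassCurve K) (hE : E.IsElliptic)
    (M : HeightOneSpectrum (𝓞 K) → WeierstrassCurve (𝓞 K)) (hM : MinimalModels E M) :
    ∃ F : ℝ → ℂ, Measurable F ∧
      (∀ᵐ t : ℝ, F t ≠ 0 ∧
        Tendsto (fun σ : ℝ => LSeries M (σ + t * Complex.I)) (𝓝[>] (3 / 2)) (𝓝 (F t))) ∧
      ∃ μ : Measure ℂ, IsProbabilityMeasure μ ∧ μ {0} = 0 ∧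
        ∀ g : ℂ → ℝ, ContinuousOn g {0}ᶜ → ∀ q C : ℝ, 0 ≤ q → q < 1 / 2 →
          (∀ z : ℂ, z ≠ 0 → |g z| ≤ C * (‖z‖ ^ q + ‖z‖ ^ (-q))) →
          Integrable g μ ∧ (∀ a b : ℝ, IntervalIntegrable (fun t => g (F t)) volume a b) ∧
          ∀ ε : ℝ, 0 < ε → ∃ H₀ : ℝ, 0 < H₀ ∧ ∀ H : ℝ, H₀ ≤ H → ∀ T : ℝ,
            |1 / H * (∫ t in T..(T + H), g (F t)) - ∫ z, g z ∂μ| ≤ ε := by
  obtain ⟨l, P, Q, hl, hP, hQ, hD⟩ := H341R2.EC.exists_integral E hE
  obtain ⟨S, hS⟩ := L5helper14.Edge.stg_EC E hl hP hQ hD M hM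
  obtain ⟨lam, hlam, hlaw⟩ := S.law
  have hexpm : Measurable Complex.exp := Complex.continuous_exp.measurable
  refine ⟨fun t => Complex.exp (S.Φ t), hexpm.comp S.meas, ?_, lam.map Complex.exp,
    Measure.isProbabilityMeasure_map hexpm.aemeasurable, ?_, ?_⟩
  · filter_upwards [hS] with t ht
    refine ⟨Complex.exp_ne_zero _, ?_⟩
    have h1 : Tendsto (fun σ : ℝ => ((σ - 3 / 2 : ℝ) : ℂ)) (𝓝[>] (3 / 2))
        (𝓝[L5helper14.Edge.cone 0] 0) := by
      refine tendsto_nhdsWithin_iff.2 ⟨?_, ?_⟩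
      · have h2 : Tendsto (fun σ : ℝ => ((σ - 3 / 2 : ℝ) : ℂ)) (𝓝 (3 / 2))
            (𝓝 (((3 / 2 - 3 / 2 : ℝ)) : ℂ)) :=
          (Complex.continuous_ofReal.tendsto _).comp (tendsto_id.sub_const _)
        rw [sub_self, Complex.ofReal_zero] at h2
        exact h2.mono_left nhdsWithin_le_nhds
      · filter_upwards [self_mem_nhdsWithin] with σ hσ
        have hσ' : (3 / 2 : ℝ) < σ := hσ
        refine ⟨?_, ?_⟩
        · rw [Complex.ofReal_re]
          linarith
        · rw [Complex.ofReal_im, abs_zero, zero_mul]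
    refine ((ht 0 le_rfl).comp h1).congr fun σ => ?_
    simp only [Function.comp_apply]
    have e : (3 / 2 + t * Complex.I + ((σ - 3 / 2 : ℝ) : ℂ) : ℂ) = σ + t * Complex.I := by
      push_cast
      ring
    rw [e]
    rfl
  · rw [Measure.map_apply hexpm (measurableSet_singleton 0)]
    have : Complex.exp ⁻¹' {0} = ∅ := by
      ext z
      simp
    rw [this, measure_empty]
  · intro g hg q C hq0 hq hgr
    have hgm : Measurable g := measurable_of_continuousOn_compl_singleton 0 hg
    have hgc : Continuous fun z : ℂ => g (Complex.exp z) :=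
      hg.comp_continuous Complex.continuous_exp fun z => Complex.exp_ne_zero z
    have hC : 0 ≤ C := by
      have h1 := (abs_nonneg _).trans (hgr 1 one_ne_zero)
      simp only [norm_one, Real.one_rpow] at h1
      linarith
    have hgr' : ∀ z : ℂ, |g (Complex.exp z)| ≤ (2 * C) * Real.exp (q * |z.re|) := by
      intro z
      refine (hgr _ (Complex.exp_ne_zero z)).trans ?_
      rw [Complex.norm_exp, ← Real.exp_mul, ← Real.exp_mul]
      have e1 : Real.exp (z.re * q) ≤ Real.exp (q * |z.re|) := by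
        refine Real.exp_le_exp.2 ?_
        nlinarith [le_abs_self z.re]
      have e2 : Real.exp (z.re * -q) ≤ Real.exp (q * |z.re|) := by
        refine Real.exp_le_exp.2 ?_
        nlinarith [neg_abs_le z.re]
      nlinarith
    obtain ⟨h1, h2⟩ := hlaw _ hgc q (2 * C) hq0 hq hgr'
    refine ⟨?_, ?_, ?_⟩
    · rw [integrable_map_measure hgm.aestronglyMeasurable hexpm.aemeasurable]
      exact h1
    · have h3 := S.li_comp (g := fun z => ((g (Complex.exp z) : ℝ) : ℂ)) (C := 2 * C)
        (Complex.continuous_ofReal.comp hgc).measurable hq0 hq (fun z => by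
          rw [Complex.norm_real]
          exact hgr' z)
      intro a b
      have h4 := h3 a b
      rw [intervalIntegrable_iff] at h4 ⊢
      exact h4.re
    · intro ε hε
      obtain ⟨H0, hH0, hH⟩ := h2 ε hε
      refine ⟨H0, hH0, fun H hHH T => ?_⟩
      have h3 := hH H hHH T
      rw [integral_map hexpm.aemeasurable hgm.aestronglyMeasurable]
      rw [intervalIntegral.integral_ofReal] at h3
      have e : (1 / (H : ℂ)) * ((∫ t in T..(T + H), g (Complex.exp (S.Φ t)) : ℝ) : ℂ) -
          ((∫ z, g (Complex.exp z) ∂lam : ℝ) : ℂ) =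
          ((1 / H * (∫ t in T..(T + H), g (Complex.exp (S.Φ t))) -
            ∫ z, g (Complex.exp z) ∂lam : ℝ) : ℂ) := by
        push_cast
        ring
      rw [e, Complex.norm_real] at h3
      exact h3

end Pool.Agent.Results.MP_7ed9c3_nt.EdgeDistribution
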