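import Pool.Agent.L5helper14.Edge.Alg2

/-!
# Algebraic independence of the boundary values of L-series of elliptic curves

The `L`-series of an elliptic curve over a number field converges absolutely for `Re s > 3/2`; for
almost every real `t` it has a finite, non-zero boundary value at `3/2 + it`.  Here no analytic
continuation is known.  We prove that algebraic relations between the boundary values of several
`L`-series on a set of positive measure are identities between the `L`-series, that such identities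
come from multiplicative relations between Euler factors, and that otherwise, for almost every `t`,
the boundary values at `3/2 + it` are algebraically independent over any given countable field.
-/

set_option autoImplicit false
open NumberField
open Classical

namespace Pool.Agent.Results.MP_7ed9c3_nt.EdgeIndependence

open IsDedekindDomain Filter Topology MeasureTheory

/-- `M v` is, for every `v`, an integral model of `E` with discriminant minimal at `v`. -/
def MinimalModels {K : Type} [Field K] [NumberField K] (E : WeierstrassCurve K)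
    (M : HeightOneSpectrum (𝓞 K) → WeierstrassCurve (𝓞 K)) : Prop :=
  ∀ v : HeightOneSpectrum (𝓞 K),
    (∃ C : WeierstrassCurve.VariableChange K, C • E = (M v).map (algebraMap (𝓞 K) K)) ∧
    ∀ W : WeierstrassCurve (𝓞 K),
      (∃ C : WeierstrassCurve.VariableChange K, C • E = W.map (algebraMap (𝓞 K) K)) →
        ∀ n : ℕ, (M v).Δ ∈ v.asIdeal ^ n → W.Δ ∈ v.asIdeal ^ n

/-- The Euler factor of the problem at `v`, computed from the reduction of the model `M v`. -/
noncomputable def factor {K : Type} [Field K] [NumberField K]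
    (M : HeightOneSpectrum (𝓞 K) → WeierstrassCurve (𝓞 K)) (v : HeightOneSpectrum (𝓞 K)) (s : ℂ) :
    ℂ :=
  (1 - ((((Ideal.absNorm v.asIdeal : ℕ) : ℤ) -
          ((Nat.card {p : (𝓞 K ⧸ v.asIdeal) × (𝓞 K ⧸ v.asIdeal) //
            p.2 ^ 2 + Ideal.Quotient.mk v.asIdeal (M v).a₁ * p.1 * p.2
              + Ideal.Quotient.mk v.asIdeal (M v).a₃ * p.2
            = p.1 ^ 3 + Ideal.Quotient.mk v.asIdeal (M v).a₂ * p.1 ^ 2
              + Ideal.Quotient.mk v.asIdeal (M v).a₄ * p.1
              + Ideal.Quotient.mk v.asIdeal (M v).a₆} : ℕ) : ℤ) : ℤ) : ℂ)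
          * ((Ideal.absNorm v.asIdeal : ℕ) : ℂ) ^ (-s)
      + (if (M v).Δ ∈ v.asIdeal then (0 : ℂ) else 1)
          * ((Ideal.absNorm v.asIdeal : ℕ) : ℂ) ^ (1 - 2 * s))⁻¹

/-- The Euler product of the problem. -/
noncomputable def LSeries {K : Type} [Field K] [NumberField K]
    (M : HeightOneSpectrum (𝓞 K) → WeierstrassCurve (𝓞 K)) (s : ℂ) : ℂ :=
  ∏' v : HeightOneSpectrum (𝓞 K), factor M v s

/-- The product of the Euler factors over the primes `v` above the rational prime `p`. -/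
noncomputable def factorAt {K : Type} [Field K] [NumberField K]
    (M : HeightOneSpectrum (𝓞 K) → WeierstrassCurve (𝓞 K)) (p : ℕ) (s : ℂ) : ℂ :=
  ∏ᶠ (v : HeightOneSpectrum (𝓞 K)) (_ : (p : 𝓞 K) ∈ v.asIdeal), factor M v s

/-- `ℓ` is the boundary value of the `L`-series at `3/2 + it`. -/
def EdgeValue {K : Type} [Field K] [NumberField K]
    (M : HeightOneSpectrum (𝓞 K) → WeierstrassCurve (𝓞 K)) (t : ℝ) (ℓ : ℂ) : Prop :=
  Tendsto (fun ε : ℝ => LSeries M (3 / 2 + ε + t * Complex.I)) (𝓝[>] 0) (𝓝 ℓ)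

/-- The Euler factors of the `L`-series at almost all rational primes satisfy one non-trivial
multiplicative relation. -/
def Dependent {k : ℕ} {K : Fin k → Type} [∀ i, Field (K i)] [∀ i, NumberField (K i)]
    (M : ∀ i, HeightOneSpectrum (𝓞 (K i)) → WeierstrassCurve (𝓞 (K i))) : Prop :=
  ∃ m : Fin k → ℤ, m ≠ 0 ∧ ∃ N : ℕ, N ≠ 0 ∧ ∀ p : ℕ, p.Prime → ¬ p ∣ N →
    ∀ s : ℂ, 3 / 2 < s.re → ∏ i, factorAt (M i) p s ^ m i = 1

/-- **Algebraic relations on the edge.**

1. An algebraic relation between the boundary values of the `L`-series of `k` elliptic curves over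
   number fields on a set of positive measure holds for the `L`-series in `Re s > 3/2`.
2. If the Euler factors are not multiplicatively dependent, then for every countable field
   `F ⊆ ℂ` and almost all `t` the boundary values at `3/2 + it` exist and are algebraically
   independent over `F`.
3. For one curve and almost all `t` the boundary value at `3/2 + it` is transcendental over `F`.
4. For two curves over the same number field, either their Euler factors agree at almost all rational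
   primes, or for almost all `t` their boundary values at `3/2 + it` are algebraically independent
   over `F`. -/
theorem result :
    (∀ (k : ℕ) (K : Fin k → Type) [∀ i, Field (K i)] [∀ i, NumberField (K i)]
      (E : ∀ i, WeierstrassCurve (K i)), (∀ i, (E i).IsElliptic) →
      ∀ M : ∀ i, HeightOneSpectrum (𝓞 (K i)) → WeierstrassCurve (𝓞 (K i)),
      (∀ i, MinimalModels (E i) (M i)) →
      (∀ Φ : MvPolynomial (Fin k) ℂ,
        0 < volume {t : ℝ | Tendsto (fun ε : ℝ => MvPolynomial.eval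
          (fun i => LSeries (M i) (3 / 2 + ε + t * Complex.I)) Φ) (𝓝[>] 0) (𝓝 0)} →
        ∀ s : ℂ, 3 / 2 < s.re → MvPolynomial.eval (fun i => LSeries (M i) s) Φ = 0) ∧
      (¬ Dependent M → ∀ F : Subfield ℂ, Countable F → ∀ᵐ t : ℝ, ∃ ℓ : Fin k → ℂ,
        (∀ i, ℓ i ≠ 0 ∧ EdgeValue (M i) t (ℓ i)) ∧ AlgebraicIndependent F ℓ)) ∧
    (∀ (K : Type) [Field K] [NumberField K] (E : WeierstrassCurve K), E.IsElliptic →
      ∀ M : HeightOneSpectrum (𝓞 K) → WeierstrassCurve (𝓞 K), MinimalModels E M →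
      ∀ F : Subfield ℂ, Countable F → ∀ᵐ t : ℝ, ∃ ℓ : ℂ,
        ℓ ≠ 0 ∧ EdgeValue M t ℓ ∧ Transcendental F ℓ) ∧
    (∀ (K : Type) [Field K] [NumberField K] (E₁ E₂ : WeierstrassCurve K), E₁.IsElliptic →
      E₂.IsElliptic → ∀ M₁ M₂ : HeightOneSpectrum (𝓞 K) → WeierstrassCurve (𝓞 K),
      MinimalModels E₁ M₁ → MinimalModels E₂ M₂ →
      (∃ N : ℕ, N ≠ 0 ∧ ∀ p : ℕ, p.Prime → ¬ p ∣ N → ∀ s : ℂ, 3 / 2 < s.re →
        factorAt M₁ p s = factorAt M₂ p s) ∨
      ∀ F : Subfield ℂ, Countable F → ∀ᵐ t : ℝ, ∃ ℓ₁ ℓ₂ : ℂ, ℓ₁ ≠ 0 ∧ ℓ₂ ≠ 0 ∧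
        EdgeValue M₁ t ℓ₁ ∧ EdgeValue M₂ t ℓ₂ ∧ AlgebraicIndependent F ![ℓ₁, ℓ₂]) := by
  refine ⟨?_, ?_, ?_⟩
  · intro k K _ _ E hE M hM
    have hex := fun i => H341R2.EC.exists_integral (E i) (hE i)
    choose l P Q hl hP hQ hD using hex
    have hdat := fun i => L5helper14.Edge.dat_EC (E i) (hl i) (hP i) (hQ i) (hD i) (M i) (hM i)
    have hbd := fun i => L5helper14.Edge.bd_EC (E i) (hl i) (hP i) (hQ i) (hD i) (M i) (hM i)
    have hlim := fun i => L5helper14.Edge.lim_EC (E i) (hl i) (hP i) (hQ i) (hD i) (M i) (hM i)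
    refine ⟨?_, ?_⟩
    · intro Φ hΦ
      refine L5helper14.Edge.D.alg_uniq hdat hbd Φ ?_
      refine (lt_of_lt_of_le hΦ (measure_mono ?_)).ne'
      intro t ht
      have h5 : Tendsto (fun n : ℕ => 1 / ((n : ℝ) + 1)) atTop (𝓝[>] 0) := by
        refine tendsto_nhdsWithin_iff.2 ⟨tendsto_one_div_add_atTop_nhds_zero_nat, ?_⟩
        exact Eventually.of_forall fun n => by
          have : (0:ℝ) < 1 / ((n : ℝ) + 1) := by positivity
          exact this
      have ht' : Tendsto (fun ε : ℝ => MvPolynomial.eval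
          (fun i => LSeries (M i) (3 / 2 + ε + t * Complex.I)) Φ) (𝓝[>] 0) (𝓝 0) := ht
      refine (ht'.comp h5).congr fun n => ?_
      simp only [Function.comp_apply]
      congr 2
      funext i
      rw [add_assoc]
      rfl
    · intro hdep F hF
      refine L5helper14.Edge.D.indep hdat hbd hlim ?_ F
      rintro ⟨a, b, hab, N, hN, h⟩
      apply hdep
      refine ⟨fun i => (a i : ℤ) - b i, ?_, N, hN, fun p hp hpN s hs => ?_⟩
      · intro h0
        apply hab
        funext i
        have := congrFun h0 i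
        simp only [Pi.zero_apply] at this
        omega
      · have h1 := h p hp hpN s hs
        have hne : ∀ i, factorAt (M i) p s ≠ 0 := by
          intro i
          obtain ⟨B0, hA, hδ, _, _⟩ := L5helper14.Edge.ec_data (E i) (hl i) (hP i) (hQ i) (hD i) (M i) (hM i)
          have h2 := L5helper14.Edge.Lp_eq (M i) hp s
          have h3 : factorAt (M i) p s = L5helper14.Edge.Lp (M i) p s := rfl
          rw [h3, h2]
          exact Finset.prod_ne_zero_iff.2 fun v _ =>
            inv_ne_zero (L5helper14.Edge.PSys.lf_ne hA hδ v hs.le)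
        have h2 : ∏ i, factorAt (M i) p s ^ a i = ∏ i, factorAt (M i) p s ^ b i := h1
        have h3 : ∀ i, factorAt (M i) p s ^ ((a i : ℤ) - b i) =
            factorAt (M i) p s ^ a i / factorAt (M i) p s ^ b i := by
          intro i
          rw [zpow_sub₀ (hne i), zpow_natCast, zpow_natCast]
        simp only [h3]
        rw [Finset.prod_div_distrib, h2, div_self]
        exact Finset.prod_ne_zero_iff.2 fun i _ => pow_ne_zero _ (hne i)
  · intro K _ _ E hE M hM F hF
    obtain ⟨l, P, Q, hl, hP, hQ, hD⟩ := H341R2.EC.exists_integral E hE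
    obtain ⟨N2, hN2, hgood⟩ := L5helper14.Edge.good_away E hl hP hQ hD M hM
    have h := L5helper14.Edge.D.indep (k := 1) (fun _ => L5helper14.Edge.dat_EC E hl hP hQ hD M hM)
      (fun _ => L5helper14.Edge.bd_EC E hl hP hQ hD M hM)
      (fun _ => L5helper14.Edge.lim_EC E hl hP hQ hD M hM)
      (L5helper14.Edge.not_dep_one hN2 hgood) F
    filter_upwards [h] with t ht
    obtain ⟨ℓ, h1, h2⟩ := ht
    exact ⟨ℓ 0, (h1 0).1, (h1 0).2, h2.transcendental 0⟩
  · intro K _ _ E₁ E₂ hE₁ hE₂ M₁ M₂ hM₁ hM₂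
    by_cases hc : ∃ N : ℕ, N ≠ 0 ∧ ∀ p : ℕ, p.Prime → ¬ p ∣ N → ∀ s : ℂ, 3 / 2 < s.re →
        factorAt M₁ p s = factorAt M₂ p s
    · exact Or.inl hc
    right
    intro F hF
    obtain ⟨l₁, P₁, Q₁, hl₁, hP₁, hQ₁, hD₁⟩ := H341R2.EC.exists_integral E₁ hE₁
    obtain ⟨l₂, P₂, Q₂, hl₂, hP₂, hQ₂, hD₂⟩ := H341R2.EC.exists_integral E₂ hE₂
    obtain ⟨N₁, hN₁, hgood₁⟩ := L5helper14.Edge.good_away E₁ hl₁ hP₁ hQ₁ hD₁ M₁ hM₁
    obtain ⟨N₂, hN₂, hgood₂⟩ := L5helper14.Edge.good_away E₂ hl₂ hP₂ hQ₂ hD₂ M₂ hM₂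
    have h := L5helper14.Edge.D.indep (k := 2)
      (Lf := fun i s => LSeries (![M₁, M₂] i) s) (Lp := fun i => L5helper14.Edge.Lp (![M₁, M₂] i))
      (by
        intro i
        fin_cases i
        · exact L5helper14.Edge.dat_EC E₁ hl₁ hP₁ hQ₁ hD₁ M₁ hM₁
        · exact L5helper14.Edge.dat_EC E₂ hl₂ hP₂ hQ₂ hD₂ M₂ hM₂)
      (by
        intro i
        fin_cases i
        · exact L5helper14.Edge.bd_EC E₁ hl₁ hP₁ hQ₁ hD₁ M₁ hM₁
        · exact L5helper14.Edge.bd_EC E₂ hl₂ hP₂ hQ₂ hD₂ M₂ hM₂)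
      (by
        intro i
        fin_cases i
        · exact L5helper14.Edge.lim_EC E₁ hl₁ hP₁ hQ₁ hD₁ M₁ hM₁
        · exact L5helper14.Edge.lim_EC E₂ hl₂ hP₂ hQ₂ hD₂ M₂ hM₂)
      (L5helper14.Edge.not_dep_two (mul_ne_zero hN₁ hN₂)
        (fun p hp hpN => hgood₁ p hp fun hd => hpN (Dvd.dvd.mul_right hd _))
        (fun p hp hpN => hgood₂ p hp fun hd => hpN (Dvd.dvd.mul_left hd _))
        (fun ⟨N, hN, h⟩ => hc ⟨N, hN, h⟩)) F
    filter_upwards [h] with t ht
    obtain ⟨ℓ, h1, h2⟩ := ht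
    refine ⟨ℓ 0, ℓ 1, (h1 0).1, (h1 1).1, (h1 0).2, (h1 1).2, ?_⟩
    have e : ![ℓ 0, ℓ 1] = ℓ := by
      funext i
      fin_cases i <;> rfl
    rw [e]
    exact h2

end Pool.Agent.Results.MP_7ed9c3_nt.EdgeIndependence
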