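import Pool.Agent.L5helper14.Edge.EC2

/-!
# The L-series of every elliptic curve over every number field is locally in the Hardy classes
`H^p`, `|p| < 1/2`, up to the edge of absolute convergence, uniformly in the height

For an elliptic curve `E` over a number field `K` and `|p| < 1/2` the integrals of `|L(E, σ + it)|^p`
over all intervals `T ≤ t ≤ T + 1` are bounded by one constant for all `σ > 3/2` and all `T`.  For
negative `p` this bounds the negative moments.
-/

set_option autoImplicit false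
open NumberField
open Classical

namespace Pool.Agent.Results.MP_7ed9c3_nt.EdgeMoments

open IsDedekindDomain Filter Topology MeasureTheory
open scoped ENNReal NNReal

/-- `M v` is, for every `v`, an integral model of `E` with discriminant minimal at `v`. -/
def MinimalModels {K : Type} [Field K] [NumberField K] (E : WeierstrassCurve K)
    (M : HeightOneSpectrum (𝓞 K) → WeierstrassCurve (𝓞 K)) : Prop :=
  ∀ v : HeightOneSpectrum (𝓞 K),
    (∃ C : WeierstrassCurve.VariableChange K, C • E = (M v).map (algebraMap (𝓞 K) K)) ∧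
    ∀ W : WeierstrassCurve (𝓞 K),
      (∃ C : WeierstrassCurve.VariableChange K, C • E = W.map (algebraMap (𝓞 K) K)) →
        ∀ n : ℕ, (M v).Δ ∈ v.asIdeal ^ n → W.Δ ∈ v.asIdeal ^ n

/-- The Euler product of the problem, computed from the reductions of the models `M v`. -/
noncomputable def LSeries {K : Type} [Field K] [NumberField K]
    (M : HeightOneSpectrum (𝓞 K) → WeierstrassCurve (𝓞 K)) (s : ℂ) : ℂ :=
  ∏' v : HeightOneSpectrum (𝓞 K),
    (1 - ((((Ideal.absNorm v.asIdeal : ℕ) : ℤ) -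
          ((Nat.card {p : (𝓞 K ⧸ v.asIdeal) × (𝓞 K ⧸ v.asIdeal) //
            p.2 ^ 2 + Ideal.Quotient.mk v.asIdeal (M v).a₁ * p.1 * p.2
              + Ideal.Quotient.mk v.asIdeal (M v).a₃ * p.2
            = p.1 ^ 3 + Ideal.Quotient.mk v.asIdeal (M v).a₂ * p.1 ^ 2
              + Ideal.Quotient.mk v.asIdeal (M v).a₄ * p.1
              + Ideal.Quotient.mk v.asIdeal (M v).a₆} : ℕ) : ℤ) : ℤ) : ℂ)
          * ((Ideal.absNorm v.asIdeal : ℕ) : ℂ) ^ (-s)
      + (if (M v).Δ ∈ v.asIdeal then (0 : ℂ) else 1)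
          * ((Ideal.absNorm v.asIdeal : ℕ) : ℂ) ^ (1 - 2 * s))⁻¹

/-- **Moments on the edge.**  Let `E` be an elliptic curve over a number field `K` and `p` a real
number, positive or negative, with `|p| < 1/2`.  There is a constant `C` such that
`∫ |L(E, σ + it)|^p dt ≤ C` over `T ≤ t ≤ T + 1`, for all `σ > 3/2` and all real `T`. -/
theorem result (K : Type) [Field K] [NumberField K] (E : WeierstrassCurve K) (hE : E.IsElliptic)
    (M : HeightOneSpectrum (𝓞 K) → WeierstrassCurve (𝓞 K)) (hM : MinimalModels E M)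
    (p : ℝ) (hp : |p| < 1 / 2) :
    ∃ C : ℝ≥0, ∀ σ : ℝ, 3 / 2 < σ → ∀ T : ℝ,
      ∫⁻ t in Set.Icc T (T + 1), ‖LSeries M (σ + t * Complex.I)‖ₑ ^ p ≤ C := by
  obtain ⟨l, P, Q, hl, hP, hQ, hD⟩ := H341R2.EC.exists_integral E hE
  obtain ⟨C, hC⟩ := L5helper14.Edge.moments_EC E hl hP hQ hD M hM hp
  refine ⟨C.toNNReal, fun σ hσ T => ?_⟩
  obtain ⟨f, hf, hf0, hLf, hfC⟩ := hC σ hσ
  have h1 : ∀ t : ℝ, ‖LSeries M (σ + t * Complex.I)‖ₑ ^ p ≤ ENNReal.ofReal (f t) := by
    intro t
    have h2 : ‖LSeries M (σ + t * Complex.I)‖ ^ p ≤ f t := hLf t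
    have hne : LSeries M (σ + t * Complex.I) ≠ 0 :=
      L5helper14.Edge.ne_zero_EC E hl hP hQ hD M hM (by simpa using hσ)
    have hpos : 0 < ‖LSeries M (σ + t * Complex.I)‖ := norm_pos_iff.2 hne
    rw [← ofReal_norm, ENNReal.ofReal_rpow_of_pos hpos]
    exact ENNReal.ofReal_le_ofReal h2
  calc ∫⁻ t in Set.Icc T (T + 1), ‖LSeries M (σ + t * Complex.I)‖ₑ ^ p
      ≤ ∫⁻ t in Set.Icc T (T + 1), ENNReal.ofReal (f t) := lintegral_mono h1
    _ = ENNReal.ofReal (∫ t in Set.Icc T (T + 1), f t) := by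
        rw [ofReal_integral_eq_lintegral_ofReal]
        · exact hf.integrableOn_Icc
        · exact Eventually.of_forall hf0
    _ = ENNReal.ofReal (∫ t in T..(T + 1), f t) := by
        rw [intervalIntegral.integral_of_le (by linarith), integral_Icc_eq_integral_Ioc]
    _ ≤ (C.toNNReal : ℝ≥0∞) := ENNReal.ofReal_le_ofReal (hfC T)

end Pool.Agent.Results.MP_7ed9c3_nt.EdgeMoments
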